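import Mathlib

set_option autoImplicit false

/-!
# Generic translation-invariant transversals

We build a function `k : ℕ → ℚ × ℚ → ℚ × ℚ` which is `generic` in the sense of `exists_generic`.
The function is the union of a sufficiently generic filter of finite partial functions.
-/

noncomputable section
open scoped Classical

namespace Pool.Agent.R761.STP

/-- the linear form attached to a direction: `none` is the vertical direction -/
def phi (n : Option ℚ) (g : ℚ × ℚ) : ℚ :=
  match n with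
  | some n => g.2 - n * g.1
  | none => g.1

/-- the perturbation of the lines of slope two -/
def cc (n : Option ℚ) (i : ℚ × ℚ) : ℚ := if n = some 2 ∧ i = (1, 3) then 1 else 0

/-- the direction of a vector -/
def dir (i : ℚ × ℚ) : Option ℚ := if i.1 = 0 then none else some (i.2 / i.1)

@[simp] lemma phi_some (n : ℚ) (g : ℚ × ℚ) : phi (some n) g = g.2 - n * g.1 := rfl
@[simp] lemma phi_none (g : ℚ × ℚ) : phi none g = g.1 := rfl

@[simp] lemma phi_zero (n : Option ℚ) : phi n 0 = 0 := by
  cases n <;> simp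

lemma phi_add (n : Option ℚ) (a b : ℚ × ℚ) : phi n (a + b) = phi n a + phi n b := by
  cases n <;> simp <;> ring

lemma phi_sub (n : Option ℚ) (a b : ℚ × ℚ) : phi n (a - b) = phi n a - phi n b := by
  cases n <;> simp <;> ring

lemma phi_neg (n : Option ℚ) (a : ℚ × ℚ) : phi n (-a) = - phi n a := by
  cases n <;> simp <;> ring

@[simp] lemma cc_zero (n : Option ℚ) : cc n 0 = 0 := by
  unfold cc
  rw [if_neg]
  rintro ⟨-, h⟩
  have := congrArg Prod.fst h
  norm_num at this

lemma phi_dir (i : ℚ × ℚ) : phi (dir i) i = 0 := by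
  unfold dir
  split_ifs with h
  · simpa using h
  · simp [h]

lemma eq_dir {n : Option ℚ} {i : ℚ × ℚ} (hi : i ≠ 0) (h : phi n i = 0) : n = dir i := by
  unfold dir
  cases n with
  | none => simp at h; simp [h]
  | some n =>
    simp at h
    split_ifs with h1
    · exfalso; apply hi
      rw [h1] at h
      ext <;> simp [h1] ; linarith
    · congr 1
      field_simp
      linarith

/-- two different directions are independent -/
lemma phi_inj {n m : Option ℚ} (h : n ≠ m) {i : ℚ × ℚ} (h1 : phi n i = 0) (h2 : phi m i = 0) :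
    i = 0 := by
  by_contra hi
  exact h ((eq_dir hi h1).trans (eq_dir hi h2).symm)

/-- two different directions are independent -/
lemma phi_surj {n m : Option ℚ} (h : n ≠ m) (a b : ℚ) : ∃ i, phi n i = a ∧ phi m i = b := by
  cases n with
  | none =>
    cases m with
    | none => exact absurd rfl h
    | some m => exact ⟨(a, b + m * a), by simp, by simp⟩
  | some n =>
    cases m with
    | none => exact ⟨(b, a + n * b), by simp, by simp⟩
    | some m =>
      have hnm : n - m ≠ 0 := fun h' => h (by congr 1; linarith)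
      refine ⟨((b - a) / (n - m), a + n * ((b - a) / (n - m))), by simp, ?_⟩
      simp
      field_simp
      ring

/-- on a line one can avoid finitely many lines of other directions -/
lemma avoid_line (n0 : Option ℚ) (β0 : ℚ) (Λ : Finset (Option ℚ × ℚ)) (hΛ : ∀ x ∈ Λ, x.1 ≠ n0) :
    ∃ v : ℚ × ℚ, phi n0 v = β0 ∧ ∀ x ∈ Λ, phi x.1 v ≠ x.2 := by
  cases n0 with
  | none =>
    obtain ⟨t, ht⟩ := Infinite.exists_notMem_finset
      (Λ.image (fun x => match x.1 with | some n => x.2 + n * β0 | none => 0))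
    refine ⟨(β0, t), rfl, ?_⟩
    rintro ⟨n, β⟩ hx
    cases n with
    | none => exact absurd rfl (hΛ _ hx)
    | some n =>
      intro h
      apply ht
      rw [Finset.mem_image]
      refine ⟨_, hx, ?_⟩
      simp at h ⊢
      linarith
  | some m =>
    obtain ⟨t, ht⟩ := Infinite.exists_notMem_finset
      (Λ.image (fun x => match x.1 with | some n => (x.2 - β0) / (m - n) | none => x.2))
    refine ⟨(t, m * t + β0), by simp, ?_⟩
    rintro ⟨n, β⟩ hx
    cases n with
    | none =>
      intro h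
      apply ht
      rw [Finset.mem_image]
      exact ⟨_, hx, by simpa using h.symm⟩
    | some n =>
      intro h
      apply ht
      rw [Finset.mem_image]
      refine ⟨_, hx, ?_⟩
      have hmn : m - n ≠ 0 := by
        intro h'
        exact hΛ _ hx (by simp; linarith)
      simp at h ⊢
      field_simp
      linarith

/-- one can avoid finitely many lines -/
lemma avoid (Λ : Finset (Option ℚ × ℚ)) : ∃ v : ℚ × ℚ, ∀ x ∈ Λ, phi x.1 v ≠ x.2 := by
  obtain ⟨m, hm⟩ := Infinite.exists_notMem_finset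
      (Λ.image (fun x => match x.1 with | some n => n | none => 0))
  obtain ⟨v, -, hv⟩ := avoid_line (some m) 0 Λ (by
    rintro ⟨n, β⟩ hx h
    simp at h
    apply hm
    rw [Finset.mem_image]
    refine ⟨_, hx, ?_⟩
    subst h
    rfl)
  exact ⟨v, hv⟩

/-- a finite partial function -/
abbrev Pre := Finset (ℕ × (ℚ × ℚ) × (ℚ × ℚ))

/-- the graph of a finite partial function; every function takes the value zero at zero -/
def R (S : Pre) (w : ℕ) (i v : ℚ × ℚ) : Prop := (i = 0 ∧ v = 0) ∨ (w, i, v) ∈ S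

/-- the consistency conditions -/
structure Valid (S : Pre) : Prop where
  nz : ∀ w i v, (w, i, v) ∈ S → i ≠ 0
  func : ∀ w i v v', (w, i, v) ∈ S → (w, i, v') ∈ S → v = v'
  condA : ∀ w w', w ≠ w' → ∀ i j, i ≠ j → ∀ a a' b b', R S w i a → R S w' i a' → R S w j b →
    R S w' j b' → a - a' ≠ b - b'
  condB : ∀ w i j, i ≠ j → ∀ a b, R S w i a → R S w j b → ∀ n, phi n (i - j) = 0 →
    phi n a + cc n i ≠ phi n b + cc n j

lemma Valid.func' {S : Pre} (h : Valid S) {w : ℕ} {i v v' : ℚ × ℚ} (h1 : R S w i v)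
    (h2 : R S w i v') : v = v' := by
  rcases h1 with ⟨hi, hv⟩ | h1
  · rcases h2 with ⟨-, hv'⟩ | h2
    · rw [hv, hv']
    · exact absurd hi (h.nz _ _ _ h2)
  · rcases h2 with ⟨hi, -⟩ | h2
    · exact absurd hi (h.nz _ _ _ h1)
    · exact h.func _ _ _ _ h1 h2

lemma Valid.at_zero {S : Pre} (h : Valid S) {w : ℕ} {v : ℚ × ℚ} (h1 : R S w 0 v) : v = 0 := by
  rcases h1 with ⟨-, hv⟩ | h1
  · exact hv
  · exact absurd rfl (h.nz _ _ _ h1)

lemma R_zero (S : Pre) (w : ℕ) : R S w 0 0 := Or.inl ⟨rfl, rfl⟩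

lemma R_mono {S T : Pre} (h : S ⊆ T) {w : ℕ} {i v : ℚ × ℚ} (h1 : R S w i v) : R T w i v :=
  h1.imp id (fun h2 => h h2)

lemma R_insert {S : Pre} {w w0 : ℕ} {i i0 v v0 : ℚ × ℚ} :
    R (insert (w0, i0, v0) S) w i v ↔ R S w i v ∨ (w = w0 ∧ i = i0 ∧ v = v0) := by
  unfold R
  simp only [Finset.mem_insert, Prod.mk.injEq]
  tauto

/-- insertion of one value -/
lemma Valid.insert {S : Pre} (h : Valid S) {w0 : ℕ} {i0 v0 : ℚ × ℚ} (hi0 : i0 ≠ 0)
    (hnew : ∀ v, ¬ R S w0 i0 v)
    (hA : ∀ w', w' ≠ w0 → ∀ a', R S w' i0 a' → ∀ j, j ≠ i0 → ∀ b b', R S w0 j b → R S w' j b' →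
      v0 - a' ≠ b - b')
    (hB : ∀ j, j ≠ i0 → ∀ b, R S w0 j b → ∀ n, phi n (i0 - j) = 0 →
      phi n v0 + cc n i0 ≠ phi n b + cc n j) :
    Valid (insert (w0, i0, v0) S) where
  nz := by
    intro w i v hm
    rcases Finset.mem_insert.1 hm with hm | hm
    · simp only [Prod.mk.injEq] at hm
      rw [hm.2.1]; exact hi0
    · exact h.nz _ _ _ hm
  func := by
    intro w i v v' h1 h2
    have h1' : R (Insert.insert (w0, i0, v0) S) w i v := Or.inr h1
    have h2' : R (Insert.insert (w0, i0, v0) S) w i v' := Or.inr h2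
    rw [R_insert] at h1' h2'
    rcases h1' with h1' | ⟨rfl, rfl, rfl⟩
    · rcases h2' with h2' | ⟨rfl, rfl, rfl⟩
      · exact h.func' h1' h2'
      · exact absurd h1' (hnew _)
    · rcases h2' with h2' | ⟨-, -, rfl⟩
      · exact absurd h2' (hnew _)
      · rfl
  condA := by
    intro w w' hww i j hij a a' b b' h1 h2 h3 h4
    rw [R_insert] at h1 h2 h3 h4
    rcases h1 with h1 | ⟨rfl, rfl, rfl⟩
    · rcases h2 with h2 | ⟨rfl, rfl, rfl⟩
      · rcases h3 with h3 | ⟨rfl, rfl, rfl⟩
        · rcases h4 with h4 | ⟨rfl, rfl, rfl⟩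
          · exact h.condA w w' hww i j hij a a' b b' h1 h2 h3 h4
          · intro he
            exact hA w hww b h3 i hij a' a h2 h1 (by rw [← neg_sub, ← he, neg_sub])
        · rcases h4 with h4 | ⟨h4, -, -⟩
          · intro he
            exact hA w' (Ne.symm hww) b' h4 i hij a a' h1 h2 he.symm
          · exact absurd h4.symm hww
      · rcases h3 with h3 | ⟨h3, -, -⟩
        · rcases h4 with h4 | ⟨-, h4, -⟩
          · intro he
            exact hA w hww a h1 j (Ne.symm hij) b' b h4 h3 (by rw [← neg_sub, he, neg_sub])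
          · exact absurd h4.symm hij
        · exact absurd h3 hww
    · rcases h2 with h2 | ⟨h2, -, -⟩
      · rcases h3 with h3 | ⟨-, h3, -⟩
        · rcases h4 with h4 | ⟨h4, -, -⟩
          · exact hA w' (Ne.symm hww) a' h2 j (Ne.symm hij) b b' h3 h4
          · exact absurd h4.symm hww
        · exact absurd h3.symm hij
      · exact absurd h2.symm hww
  condB := by
    intro w i j hij a b h1 h2 n hn
    rw [R_insert] at h1 h2
    rcases h1 with h1 | ⟨rfl, rfl, rfl⟩
    · rcases h2 with h2 | ⟨rfl, rfl, rfl⟩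
      · exact h.condB w i j hij a b h1 h2 n hn
      · intro he
        exact hB i hij a h1 n (by rw [← neg_sub, phi_neg, hn, neg_zero]) he.symm
    · rcases h2 with h2 | ⟨-, h2, -⟩
      · exact hB j (Ne.symm hij) b h2 n hn
      · exact absurd h2.symm hij

/-- all values of a finite partial function -/
def vals (S : Pre) : Finset (ℚ × ℚ) := insert 0 (S.image (fun x => x.2.2))

/-- all arguments of a finite partial function -/
def args (S : Pre) : Finset (ℚ × ℚ) := insert 0 (S.image (fun x => x.2.1))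

lemma mem_vals {S : Pre} {w : ℕ} {i v : ℚ × ℚ} (h : R S w i v) : v ∈ vals S := by
  rcases h with ⟨-, rfl⟩ | h
  · exact Finset.mem_insert_self _ _
  · exact Finset.mem_insert_of_mem (Finset.mem_image_of_mem (fun x => x.2.2) h)

lemma mem_args {S : Pre} {w : ℕ} {i v : ℚ × ℚ} (h : R S w i v) : i ∈ args S := by
  rcases h with ⟨rfl, -⟩ | h
  · exact Finset.mem_insert_self _ _
  · exact Finset.mem_insert_of_mem (Finset.mem_image_of_mem (fun x => x.2.1) h)

/-- the lines which must be avoided because of condition B; `g` is a shift -/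
def linesB (S : Pre) (i0 g : ℚ × ℚ) : Finset (Option ℚ × ℚ) :=
  ((args S) ×ˢ (vals S)).image (fun x => (dir (i0 - x.1),
    phi (dir (i0 - x.1)) x.2 + cc (dir (i0 - x.1)) x.1 - cc (dir (i0 - x.1)) i0
      - phi (dir (i0 - x.1)) g))

lemma linesB_spec {S : Pre} {i0 g v : ℚ × ℚ} (hv : ∀ x ∈ linesB S i0 g, phi x.1 v ≠ x.2)
    {w0 : ℕ} {j b : ℚ × ℚ} (hj : j ≠ i0) (h : R S w0 j b) (n : Option ℚ)
    (hn : phi n (i0 - j) = 0) : phi n (v + g) + cc n i0 ≠ phi n b + cc n j := by
  have hn' : n = dir (i0 - j) := eq_dir (sub_ne_zero.2 (Ne.symm hj)) hn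
  intro he
  refine hv (dir (i0 - j), phi (dir (i0 - j)) b + cc (dir (i0 - j)) j - cc (dir (i0 - j)) i0
      - phi (dir (i0 - j)) g) ?_ ?_
  · unfold linesB
    rw [Finset.mem_image]
    exact ⟨(j, b), Finset.mem_product.2 ⟨mem_args h, mem_vals h⟩, rfl⟩
  · rw [← hn']
    simp only
    rw [phi_add] at he
    linarith

/-- vertical lines through finitely many points -/
def linesP (F : Finset (ℚ × ℚ)) : Finset (Option ℚ × ℚ) := F.image (fun p => (none, p.1))

lemma linesP_spec {F : Finset (ℚ × ℚ)} {v : ℚ × ℚ} (hv : ∀ x ∈ linesP F, phi x.1 v ≠ x.2)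
    {p : ℚ × ℚ} (hp : p ∈ F) : v ≠ p := by
  intro h
  refine hv (none, p.1) ?_ ?_
  · exact Finset.mem_image_of_mem (fun p : ℚ × ℚ => ((none : Option ℚ), p.1)) hp
  · simp [h]

/-- the points which must be avoided because of condition A -/
def ptsA (S : Pre) : Finset (ℚ × ℚ) :=
  ((vals S) ×ˢ ((vals S) ×ˢ (vals S))).image (fun x => x.1 + x.2.1 - x.2.2)

lemma mem_ptsA {S : Pre} {a b c : ℚ × ℚ} (ha : a ∈ vals S) (hb : b ∈ vals S) (hc : c ∈ vals S) :
    a + b - c ∈ ptsA S := by
  unfold ptsA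
  rw [Finset.mem_image]
  exact ⟨(a, b, c), Finset.mem_product.2 ⟨ha, Finset.mem_product.2 ⟨hb, hc⟩⟩, rfl⟩

/-- Requirement 1: `k w i` is defined. -/
lemma ext1 {S : Pre} (h : Valid S) (w : ℕ) (i : ℚ × ℚ) :
    ∃ T, Valid T ∧ S ⊆ T ∧ ∃ v, R T w i v := by
  by_cases hd : ∃ v, R S w i v
  · exact ⟨S, h, Finset.Subset.refl _, hd⟩
  · push Not at hd
    have hi : i ≠ 0 := fun hi => hd 0 (Or.inl ⟨hi, rfl⟩)
    obtain ⟨v, hv⟩ := avoid (linesB S i 0 ∪ linesP (ptsA S))
    have hv1 : ∀ x ∈ linesB S i 0, phi x.1 v ≠ x.2 := fun x hx => hv x (Finset.mem_union_left _ hx)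
    have hv2 : ∀ x ∈ linesP (ptsA S), phi x.1 v ≠ x.2 :=
      fun x hx => hv x (Finset.mem_union_right _ hx)
    refine ⟨insert (w, i, v) S, h.insert hi hd ?_ ?_, Finset.subset_insert _ _, v, ?_⟩
    · intro w' _ a' ha' j _ b b' hb hb' he
      refine linesP_spec hv2 (mem_ptsA (mem_vals ha') (mem_vals hb) (mem_vals hb')) ?_
      rw [sub_eq_iff_eq_add.1 he]; abel
    · intro j hj b hb n hn
      have := linesB_spec hv1 hj hb n hn
      simpa using this
    · exact Or.inr (Finset.mem_insert_self _ _)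

/-- Requirement 3: `k w i - k w' i = g` for some `i`. -/
lemma ext3 {S : Pre} (h : Valid S) (w w' : ℕ) (hww : w ≠ w') (g : ℚ × ℚ) :
    ∃ T, Valid T ∧ S ⊆ T ∧ ∃ i a b, R T w i a ∧ R T w' i b ∧ a - b = g := by
  by_cases hd : ∃ i a b, R S w i a ∧ R S w' i b ∧ a - b = g
  · exact ⟨S, h, Finset.Subset.refl _, hd⟩
  · push Not at hd
    obtain ⟨i, hi⟩ := Infinite.exists_notMem_finset (args S)
    have hi0 : i ≠ 0 := fun h0 => hi (by rw [h0]; exact Finset.mem_insert_self _ _)
    have hnew : ∀ w v, ¬ R S w i v := fun w v hR => hi (mem_args hR)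
    obtain ⟨v, hv⟩ := avoid (linesB S i 0 ∪ linesB S i g)
    have hv1 : ∀ x ∈ linesB S i 0, phi x.1 v ≠ x.2 := fun x hx => hv x (Finset.mem_union_left _ hx)
    have hv2 : ∀ x ∈ linesB S i g, phi x.1 v ≠ x.2 := fun x hx => hv x (Finset.mem_union_right _ hx)
    have h1 : Valid (insert (w', i, v) S) := by
      refine h.insert hi0 (hnew w') ?_ ?_
      · intro w'' _ a' ha'
        exact absurd ha' (hnew _ _)
      · intro j hj b hb n hn
        simpa using linesB_spec hv1 hj hb n hn
    have h2 : Valid (insert (w, i, v + g) (insert (w', i, v) S)) := by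
      refine h1.insert hi0 ?_ ?_ ?_
      · intro u hu
        rw [R_insert] at hu
        rcases hu with hu | ⟨hu, -, -⟩
        · exact hnew _ _ hu
        · exact hww hu
      · intro w'' hw'' a' ha' j hj b b' hb hb' he
        rw [R_insert] at ha' hb hb'
        rcases ha' with ha' | ⟨rfl, -, rfl⟩
        · exact hnew _ _ ha'
        · rcases hb with hb | ⟨-, hb, -⟩
          · rcases hb' with hb' | ⟨-, hb', -⟩
            · refine hd j b b' hb hb' ?_
              rw [← he]; abel
            · exact hj hb'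
          · exact hj hb
      · intro j hj b hb n hn
        rw [R_insert] at hb
        rcases hb with hb | ⟨-, hb, -⟩
        · exact linesB_spec hv2 hj hb n hn
        · exact absurd hb hj
    refine ⟨_, h2, ?_, i, v + g, v, Or.inr (Finset.mem_insert_self _ _),
      Or.inr (Finset.mem_insert_of_mem (Finset.mem_insert_self _ _)), by abel⟩
    exact (Finset.subset_insert _ _).trans (Finset.subset_insert _ _)

/-- a line contains infinitely many points -/
lemma line_infinite (n : Option ℚ) (γ : ℚ) (F : Finset (ℚ × ℚ)) :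
    ∃ i, phi n i = γ ∧ i ∉ F := by
  cases n with
  | none =>
    obtain ⟨t, ht⟩ := Infinite.exists_notMem_finset (F.image Prod.snd)
    refine ⟨(γ, t), rfl, fun h => ht (Finset.mem_image_of_mem Prod.snd h)⟩
  | some n =>
    obtain ⟨t, ht⟩ := Infinite.exists_notMem_finset (F.image Prod.fst)
    refine ⟨(t, γ + n * t), by simp, fun h => ht (Finset.mem_image_of_mem Prod.fst h)⟩

/-- Requirement 4: `k w` meets the line `(n, β, γ)`. -/
lemma ext4 {S : Pre} (h : Valid S) (w : ℕ) (n : Option ℚ) (γ β : ℚ) :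
    ∃ T, Valid T ∧ S ⊆ T ∧ ∃ i a, R T w i a ∧ phi n i = γ ∧ phi n a + cc n i = β := by
  by_cases hd : ∃ i a, R S w i a ∧ phi n i = γ ∧ phi n a + cc n i = β
  · exact ⟨S, h, Finset.Subset.refl _, hd⟩
  · push Not at hd
    obtain ⟨i, hiγ, hi⟩ := line_infinite n γ (args S)
    have hi0 : i ≠ 0 := fun h0 => hi (by rw [h0]; exact Finset.mem_insert_self _ _)
    have hnew : ∀ w v, ¬ R S w i v := fun w v hR => hi (mem_args hR)
    obtain ⟨v, hvn, hv⟩ := avoid_line n (β - cc n i) ((linesB S i 0).filter (fun x => x.1 ≠ n))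
      (fun x hx => (Finset.mem_filter.1 hx).2)
    refine ⟨insert (w, i, v) S, h.insert hi0 (hnew w) ?_ ?_, Finset.subset_insert _ _, i, v,
      Or.inr (Finset.mem_insert_self _ _), hiγ, by rw [hvn]; ring⟩
    · intro w'' _ a' ha'
      exact absurd ha' (hnew _ _)
    · intro j hj b hb m hm
      by_cases hmn : m = n
      · subst hmn
        rw [hvn]
        have hjγ : phi m j = γ := by
          rw [phi_sub] at hm
          linarith
        intro he
        exact hd j b hb hjγ (by linarith)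
      · have hm' : m = dir (i - j) := eq_dir (sub_ne_zero.2 (Ne.symm hj)) hm
        intro he
        refine hv (dir (i - j), phi (dir (i - j)) b + cc (dir (i - j)) j - cc (dir (i - j)) i
            - phi (dir (i - j)) 0) ?_ ?_
        · rw [Finset.mem_filter]
          refine ⟨?_, by rw [← hm']; exact hmn⟩
          unfold linesB
          rw [Finset.mem_image]
          exact ⟨(j, b), Finset.mem_product.2 ⟨mem_args hb, mem_vals hb⟩, rfl⟩
        · rw [← hm']
          simp only [phi_zero]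
          linarith

/-- all used indices -/
lemma exists_new_index (S : Pre) : ∃ w : ℕ, ∀ i v, R S w i v → i = 0 ∧ v = 0 := by
  obtain ⟨w, hw⟩ := Infinite.exists_notMem_finset (S.image Prod.fst)
  refine ⟨w, fun i v hR => ?_⟩
  rcases hR with hR | hR
  · exact hR
  · exact absurd (Finset.mem_image_of_mem Prod.fst hR) hw

/-- Requirement 5: `k w i - k w i' = g` for some `w`. -/
lemma ext5 {S : Pre} (h : Valid S) (i i' g : ℚ × ℚ) (hi : i ≠ 0) (hii : i ≠ i')
    (hg : phi (dir (i - i')) g + cc (dir (i - i')) i - cc (dir (i - i')) i' ≠ 0) :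
    ∃ T, Valid T ∧ S ⊆ T ∧ ∃ w a b, R T w i a ∧ R T w i' b ∧ a - b = g := by
  by_cases hd : ∃ w a b, R S w i a ∧ R S w i' b ∧ a - b = g
  · exact ⟨S, h, Finset.Subset.refl _, hd⟩
  · push Not at hd
    obtain ⟨w, hw⟩ := exists_new_index S
    by_cases hi' : i' = 0
    · subst hi'
      refine ⟨insert (w, i, g) S, h.insert hi (fun v hv => hi (hw _ _ hv).1) ?_ ?_,
        Finset.subset_insert _ _, w, g, 0, Or.inr (Finset.mem_insert_self _ _), R_zero _ _,
        by simp⟩
      · intro w' _ a' ha' j hj b b' hb hb' he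
        obtain ⟨rfl, rfl⟩ := hw _ _ hb
        have hb0 := h.at_zero hb'
        subst hb0
        rw [sub_zero, sub_eq_zero] at he
        exact hd w' a' 0 ha' hb' (by rw [he, sub_zero])
      · intro j hj b hb n hn
        obtain ⟨rfl, rfl⟩ := hw _ _ hb
        have hn' : n = dir (i - 0) := eq_dir (by simpa using hi) hn
        rw [hn']
        simpa using hg
    · obtain ⟨v, hv⟩ := avoid (linesB S i' 0 ∪ linesB S i g ∪ linesP (vals S) ∪
        linesP ((vals S).image (fun x => x - g)))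
      have hv1 : ∀ x ∈ linesB S i' 0, phi x.1 v ≠ x.2 := fun x hx => hv x (by simp [hx])
      have hv2 : ∀ x ∈ linesB S i g, phi x.1 v ≠ x.2 := fun x hx => hv x (by simp [hx])
      have hv3 : ∀ x ∈ linesP (vals S), phi x.1 v ≠ x.2 := fun x hx => hv x (by simp [hx])
      have hv4 : ∀ x ∈ linesP ((vals S).image (fun x => x - g)), phi x.1 v ≠ x.2 :=
        fun x hx => hv x (by simp [hx])
      have h1 : Valid (insert (w, i', v) S) := by
        refine h.insert hi' (fun v hv => hi' (hw _ _ hv).1) ?_ ?_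
        · intro w' _ a' ha' j hj b b' hb hb' he
          obtain ⟨rfl, rfl⟩ := hw _ _ hb
          have hb0 := h.at_zero hb'
          subst hb0
          rw [sub_zero, sub_eq_zero] at he
          exact linesP_spec hv3 (mem_vals ha') he
        · intro j hj b hb n hn
          simpa using linesB_spec hv1 hj hb n hn
      have h2 : Valid (insert (w, i, v + g) (insert (w, i', v) S)) := by
        refine h1.insert hi ?_ ?_ ?_
        · intro u hu
          rw [R_insert] at hu
          rcases hu with hu | ⟨-, hu, -⟩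
          · exact hi (hw _ _ hu).1
          · exact hii hu
        · intro w' hw' a' ha' j hj b b' hb hb' he
          rw [R_insert] at ha' hb hb'
          rcases ha' with ha' | ⟨ha', -, -⟩
          · rcases hb' with hb' | ⟨hb', -, -⟩
            · rcases hb with hb | ⟨-, rfl, rfl⟩
              · obtain ⟨rfl, rfl⟩ := hw _ _ hb
                have hb0 := h.at_zero hb'
                subst hb0
                rw [sub_zero, sub_eq_zero] at he
                refine linesP_spec hv4
                  (Finset.mem_image_of_mem (fun x => x - g) (mem_vals ha')) ?_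
                rw [← he]; abel
              · refine hd w' a' b' ha' hb' ?_
                have : g = (b + g - a') - (b - b') + (a' - b') := by abel
                rw [he, sub_self, zero_add] at this
                exact this.symm
            · exact hw' hb'
          · exact hw' ha'
        · intro j hj b hb n hn
          rw [R_insert] at hb
          rcases hb with hb | ⟨-, rfl, rfl⟩
          · exact linesB_spec hv2 hj hb n hn
          · have hn' : n = dir (i - j) := eq_dir (sub_ne_zero.2 hii) hn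
            rw [← hn'] at hg
            rw [phi_add]
            intro he
            apply hg
            linarith
      refine ⟨_, h2, ?_, w, v + g, v, Or.inr (Finset.mem_insert_self _ _),
        Or.inr (Finset.mem_insert_of_mem (Finset.mem_insert_self _ _)), by abel⟩
      exact (Finset.subset_insert _ _).trans (Finset.subset_insert _ _)

/-- the valid finite partial functions -/
abbrev VP := {S : Pre // Valid S}

lemma valid_empty : Valid ∅ where
  nz := by simp
  func := by simp
  condA := by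
    intro w w' _ i j hij a a' b b' h1 h2 h3 h4
    unfold R at h1 h2 h3 h4
    simp at h1 h2 h3 h4
    exact absurd (h1.1.trans h3.1.symm) hij
  condB := by
    intro w i j hij a b h1 h2
    unfold R at h1 h2
    simp at h1 h2
    exact absurd (h1.1.trans h2.1.symm) hij

/-- the list of requirements -/
abbrev Req := (ℕ × (ℚ × ℚ)) ⊕ (ℕ × ℕ × (ℚ × ℚ)) ⊕ (ℕ × Option ℚ × ℚ × ℚ) ⊕
  ((ℚ × ℚ) × (ℚ × ℚ) × (ℚ × ℚ))

/-- the meaning of a requirement -/
def Sat (r : Req) (S : Pre) : Prop :=
  match r with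
  | Sum.inl (w, i) => ∃ v, R S w i v
  | Sum.inr (Sum.inl (w, w', g)) => w ≠ w' → ∃ i a b, R S w i a ∧ R S w' i b ∧ a - b = g
  | Sum.inr (Sum.inr (Sum.inl (w, n, γ, β))) =>
      ∃ i a, R S w i a ∧ phi n i = γ ∧ phi n a + cc n i = β
  | Sum.inr (Sum.inr (Sum.inr (i, i', g))) => i ≠ 0 → i ≠ i' →
      phi (dir (i - i')) g + cc (dir (i - i')) i - cc (dir (i - i')) i' ≠ 0 →
      ∃ w a b, R S w i a ∧ R S w i' b ∧ a - b = g

lemma sat_ext (r : Req) {S : Pre} (h : Valid S) : ∃ T, Valid T ∧ S ⊆ T ∧ Sat r T := by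
  rcases r with ⟨w, i⟩ | ⟨w, w', g⟩ | ⟨w, n, γ, β⟩ | ⟨i, i', g⟩
  · exact ext1 h w i
  · by_cases hw : w = w'
    · exact ⟨S, h, Finset.Subset.refl _, fun h' => absurd hw h'⟩
    · obtain ⟨T, h1, h2, h3⟩ := ext3 h w w' hw g
      exact ⟨T, h1, h2, fun _ => h3⟩
  · exact ext4 h w n γ β
  · by_cases hi : i ≠ 0 ∧ i ≠ i' ∧
      phi (dir (i - i')) g + cc (dir (i - i')) i - cc (dir (i - i')) i' ≠ 0
    · obtain ⟨T, h1, h2, h3⟩ := ext5 h i i' g hi.1 hi.2.1 hi.2.2
      exact ⟨T, h1, h2, fun _ _ _ => h3⟩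
    · exact ⟨S, h, Finset.Subset.refl _, fun h1 h2 h3 => absurd ⟨h1, h2, h3⟩ hi⟩

/-- the requirements as cofinal sets -/
def cof (r : Req) : Order.Cofinal VP where
  carrier := {S | Sat r S.1}
  isCofinal := by
    intro S
    obtain ⟨T, h1, h2, h3⟩ := sat_ext r S.2
    exact ⟨⟨T, h1⟩, h3, h2⟩

/-- the generic ideal -/
def gen : Order.Ideal VP := Order.idealOfCofinals ⟨∅, valid_empty⟩ cof

lemma gen_sat (r : Req) : ∃ S ∈ gen, Sat r S.1 := by
  obtain ⟨S, h1, h2⟩ := Order.cofinal_meets_idealOfCofinals (⟨∅, valid_empty⟩ : VP) cof r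
  exact ⟨S, h2, h1⟩

/-- the union of the generic ideal -/
def RR (w : ℕ) (i v : ℚ × ℚ) : Prop := ∃ S ∈ gen, R S.1 w i v

lemma gen_dir {S T : VP} (hS : S ∈ gen) (hT : T ∈ gen) : ∃ U ∈ gen, S.1 ⊆ U.1 ∧ T.1 ⊆ U.1 := by
  obtain ⟨U, hU, h1, h2⟩ := gen.directed S hS T hT
  exact ⟨U, hU, h1, h2⟩

lemma RR_total (w : ℕ) (i : ℚ × ℚ) : ∃ v, RR w i v := by
  obtain ⟨S, hS, v, hv⟩ := gen_sat (Sum.inl (w, i))
  exact ⟨v, S, hS, hv⟩

/-- the generic function -/
def kk (w : ℕ) (i : ℚ × ℚ) : ℚ × ℚ := (RR_total w i).choose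

lemma kk_spec (w : ℕ) (i : ℚ × ℚ) : RR w i (kk w i) := (RR_total w i).choose_spec

lemma kk_eq {w : ℕ} {i v : ℚ × ℚ} (h : RR w i v) : kk w i = v := by
  obtain ⟨S, hS, h1⟩ := h
  obtain ⟨T, hT, h2⟩ := kk_spec w i
  obtain ⟨U, hU, hSU, hTU⟩ := gen_dir hS hT
  exact U.2.func' (R_mono hTU h2) (R_mono hSU h1)

lemma kk_zero (w : ℕ) : kk w 0 = 0 := by
  obtain ⟨S, hS, -⟩ := gen_sat (Sum.inl (w, 0))
  exact kk_eq ⟨S, hS, R_zero _ _⟩

lemma kk_common (l : List (ℕ × (ℚ × ℚ))) : ∃ U ∈ gen, ∀ x ∈ l, R U.1 x.1 x.2 (kk x.1 x.2) := by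
  induction l with
  | nil =>
    obtain ⟨S, hS, -⟩ := gen_sat (Sum.inl (0, 0))
    exact ⟨S, hS, by simp⟩
  | cons y l ih =>
    obtain ⟨U, hU, h⟩ := ih
    obtain ⟨S, hS, h'⟩ := kk_spec y.1 y.2
    obtain ⟨T, hT, h1, h2⟩ := gen_dir hU hS
    refine ⟨T, hT, ?_⟩
    intro x hx
    rcases List.mem_cons.1 hx with rfl | hx
    · exact R_mono h2 h'
    · exact R_mono h1 (h x hx)

/-- The generic function. -/
theorem exists_generic : ∃ k : ℕ → ℚ × ℚ → ℚ × ℚ, (∀ w, k w 0 = 0) ∧
    (∀ w w', w ≠ w' → Function.Bijective (fun i => k w i - k w' i)) ∧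
    (∀ w n, Function.Bijective (fun i => (phi n i, phi n (k w i) + cc n i))) ∧
    (∀ i i', i ≠ i' → ∀ g, phi (dir (i - i')) g + cc (dir (i - i')) i - cc (dir (i - i')) i' ≠ 0 →
      ∃ w, k w i - k w i' = g) := by
  refine ⟨kk, kk_zero, ?_, ?_, ?_⟩
  · intro w w' hww
    constructor
    · intro i j hij
      by_contra hne
      obtain ⟨U, -, h⟩ := kk_common [(w, i), (w', i), (w, j), (w', j)]
      exact U.2.condA w w' hww i j hne _ _ _ _ (h (w, i) (by simp)) (h (w', i) (by simp))
        (h (w, j) (by simp)) (h (w', j) (by simp)) hij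
    · intro g
      obtain ⟨S, hS, h⟩ := gen_sat (Sum.inr (Sum.inl (w, w', g)))
      obtain ⟨i, a, b, h1, h2, h3⟩ := h hww
      refine ⟨i, ?_⟩
      simp only
      rw [kk_eq ⟨S, hS, h1⟩, kk_eq ⟨S, hS, h2⟩, h3]
  · intro w n
    constructor
    · intro i j hij
      by_contra hne
      obtain ⟨U, -, h⟩ := kk_common [(w, i), (w, j)]
      simp only [Prod.mk.injEq] at hij
      exact U.2.condB w i j hne _ _ (h (w, i) (by simp)) (h (w, j) (by simp)) n
        (by rw [phi_sub, hij.1, sub_self]) hij.2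
    · rintro ⟨γ, β⟩
      obtain ⟨S, hS, i, a, h1, h2, h3⟩ := gen_sat (Sum.inr (Sum.inr (Sum.inl (w, n, γ, β))))
      refine ⟨i, ?_⟩
      simp only
      rw [kk_eq ⟨S, hS, h1⟩, h2, h3]
  · have key : ∀ i i' : ℚ × ℚ, i ≠ 0 → i ≠ i' → ∀ g,
        phi (dir (i - i')) g + cc (dir (i - i')) i - cc (dir (i - i')) i' ≠ 0 →
        ∃ w, kk w i - kk w i' = g := by
      intro i i' hi hii g hg
      obtain ⟨S, hS, h⟩ := gen_sat (Sum.inr (Sum.inr (Sum.inr (i, i', g))))
      obtain ⟨w, a, b, h1, h2, h3⟩ := h hi hii hg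
      exact ⟨w, by rw [kk_eq ⟨S, hS, h1⟩, kk_eq ⟨S, hS, h2⟩, h3]⟩
    intro i i' hii g hg
    by_cases hi : i = 0
    · have hi' : i' ≠ 0 := fun h => hii (hi.trans h.symm)
      have hdir : dir (i' - i) = dir (i - i') := by
        refine (eq_dir (sub_ne_zero.2 (Ne.symm hii)) ?_).symm
        have h1 := phi_dir (i - i')
        rw [phi_sub] at h1 ⊢
        linarith
      obtain ⟨w, hw⟩ := key i' i hi' (Ne.symm hii) (-g) (by
        rw [hdir, phi_neg]
        intro h0
        apply hg
        linarith)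
      exact ⟨w, by rw [← neg_sub, hw, neg_neg]⟩
    · exact key i i' hi hii g hg

end Pool.Agent.R761.STP
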